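import Pool.Agent.Q76.SdMain

/-!
The four families of modified Bessel distributions are self-decomposable for all parameters in
their stated ranges.
-/

open MeasureTheory
open scoped Nat

namespace Pool.Agent.Results.MP_749de9_pr.AllSelfDecomposable

/-- The modified Bessel function of the first kind, `y > 0`. -/
noncomputable def besselI (μ y : ℝ) : ℝ :=
  ∑' k : ℕ, (y / 2) ^ (2 * (k : ℝ) + μ) / (k ! * Real.Gamma (k + μ + 1))

/-- The modified Bessel function of the second kind, `y > 0`. -/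
noncomputable def besselK (ν y : ℝ) : ℝ :=
  ∫ t in Set.Ioi (0:ℝ), Real.exp (-(y * Real.cosh t)) * Real.cosh (ν * t)

/-- family (A) -/
noncomputable def chi (a b μ ν x : ℝ) : ℝ :=
  2 ^ (μ - ν + 1) * Real.Gamma (μ + 1) * b ^ ν / (a ^ μ * Real.Gamma ν) *
    Real.exp (-(a * √x)) * x ^ ((ν - μ) / 2) * besselI μ (a * √x) * besselK ν (b * √x)

/-- family (B) -/
noncomputable def zeta (a b μ ν x : ℝ) : ℝ :=
  2 ^ (μ + ν) * Real.Gamma (μ + 1) * Real.Gamma (ν + 1) / (a ^ μ * b ^ ν) *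
    Real.exp (-((a + b) * √x)) * x ^ (-((μ + ν) / 2)) * besselI μ (a * √x) * besselI ν (b * √x)

/-- family (C) -/
noncomputable def eps (a b μ ν x : ℝ) : ℝ :=
  2 ^ (μ + ν - 1) * Real.Gamma ν * Real.Gamma (μ + 1) / (a ^ μ * b ^ ν) *
    Real.exp (-((a + b) * √x)) * x ^ (-((μ + ν) / 2)) * (besselI μ (a * √x) / besselK ν (b * √x))

/-- family (D) -/
noncomputable def rho (a b μ ν x : ℝ) : ℝ :=
  a ^ μ * b ^ ν / (2 ^ (μ + ν - 1) * Real.Gamma ν * Real.Gamma (μ + 1)) *
    x ^ ((μ + ν) / 2) * (besselK ν (b * √x) / besselI μ (a * √x))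

/-- `P` is a probability measure on `[0, ∞)` whose Laplace transform is `L`. -/
def IsLaw (P : Measure ℝ) (L : ℝ → ℝ) : Prop :=
  IsProbabilityMeasure P ∧ P (Set.Iio 0) = 0 ∧
    ∀ x : ℝ, 0 < x → ∫ t, Real.exp (-(x * t)) ∂P = L x

/-- The law `P` of `X` is self-decomposable: for every `c ∈ (0,1)` there is a law `Q` on
`[0, ∞)` such that `c X + X_c`, with `X_c` of law `Q` independent of `X`, has the law `P`. -/
def SelfDecomposable (P : Measure ℝ) : Prop :=
  ∀ c : ℝ, 0 < c → c < 1 → ∃ Q : Measure ℝ, IsProbabilityMeasure Q ∧ Q (Set.Iio 0) = 0 ∧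
    P = (P.map (fun t => c * t)).conv Q

/-- There is exactly one law with Laplace transform `L`, and it is self-decomposable. -/
def SelfDecTransform (L : ℝ → ℝ) : Prop :=
  ∃ P : Measure ℝ, IsLaw P L ∧ SelfDecomposable P ∧ ∀ P' : Measure ℝ, IsLaw P' L → P' = P

open Q76.Sd in
lemma besselI_eq (μ : ℝ) {y : ℝ} (hy : 0 < y) : besselI μ y = (y / 2) ^ μ * II μ (y ^ 2) := by
  unfold besselI II
  rw [← tsum_mul_left]
  congr 1; ext k
  have h : (y / 2) ^ (2 * (k : ℝ) + μ) = (y / 2) ^ μ * (y ^ 2 / 4) ^ k := by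
    rw [Real.rpow_add (by positivity), mul_comm]
    congr 1
    rw [show (2 * (k : ℝ)) = ((2 * k : ℕ) : ℝ) by push_cast; ring, Real.rpow_natCast, pow_mul]
    congr 1; ring
  rw [h]
  unfold ac
  ring

open Q76.Sd in
lemma besselK_eq (ν : ℝ) {y : ℝ} (hy : 0 < y) :
    besselK ν y = 1/2 * (y / 2) ^ (-ν) * KK ν (y ^ 2) := by
  have hy2 : 0 < y / 2 := by positivity
  set g : ℝ → ℝ := fun u => Real.exp (ν * u - y * Real.cosh u) with hg
  -- shift
  have e1 : ∀ u : ℝ, kk ν (y ^ 2) (u + Real.log (y / 2)) = (y / 2) ^ ν * g u := by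
    intro u
    have h1 : Real.exp (u + Real.log (y / 2)) = Real.exp u * (y / 2) := by
      rw [Real.exp_add, Real.exp_log hy2]
    have h2 : Real.exp (-(u + Real.log (y / 2))) = Real.exp (-u) * (y / 2)⁻¹ := by
      rw [neg_add, Real.exp_add, Real.exp_neg (Real.log (y / 2)), Real.exp_log hy2]
    unfold kk
    rw [h1, h2, hg, Real.rpow_def_of_pos hy2, ← Real.exp_add]
    congr 1
    rw [Real.cosh_eq]
    field_simp
    ring
  have e2 : KK ν (y ^ 2) = (y / 2) ^ ν * ∫ u, g u := by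
    unfold KK
    rw [← integral_add_right_eq_self _ (Real.log (y / 2)), ← integral_const_mul]
    exact integral_congr_ae (Filter.Eventually.of_forall e1)
  have hgint : Integrable g := by
    have h := (int_kk (show 0 < y ^ 2 by positivity) ν).comp_add_right (Real.log (y / 2))
    have h2 : Integrable (fun u => ((y / 2) ^ ν)⁻¹ * kk ν (y ^ 2) (u + Real.log (y / 2))) :=
      h.const_mul _
    refine h2.congr (Filter.Eventually.of_forall fun u => ?_)
    have h3 : (y / 2) ^ ν ≠ 0 := (Real.rpow_pos_of_pos hy2 ν).ne'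
    simp only
    rw [e1 u, inv_mul_cancel_left₀ h3]
  have e3 : ∫ u, g u = 2 * besselK ν y := by
    have h1 : ∫ u, g u = ∫ u, g (-u) := (integral_neg_eq_self g volume).symm
    have h2 : (∫ u, g u) = ∫ u, (fun u => Real.exp (-(y * Real.cosh u)) * Real.cosh (ν * u)) |u| := by
      have h3 : (∫ u, g u) + (∫ u, g u) = ∫ u, (g u + g (-u)) := by
        rw [integral_add hgint hgint.comp_neg]
        congr 1
      have h4 : ∀ u : ℝ, g u + g (-u) =
          2 * (fun u => Real.exp (-(y * Real.cosh u)) * Real.cosh (ν * u)) |u| := by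
        intro u
        have h5 : Real.cosh (ν * |u|) = Real.cosh (ν * u) := by
          rcases abs_cases u with h | h
          · rw [h.1]
          · rw [h.1, mul_neg, Real.cosh_neg]
        simp only [hg, Real.cosh_abs, Real.cosh_neg, h5]
        rw [Real.cosh_eq (ν * u), sub_eq_add_neg, sub_eq_add_neg, Real.exp_add, Real.exp_add]
        ring_nf
      simp_rw [h4] at h3
      rw [integral_const_mul] at h3
      linarith
    rw [h2, integral_comp_abs (f := fun u => Real.exp (-(y * Real.cosh u)) * Real.cosh (ν * u))]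
    rfl
  rw [e2, e3, Real.rpow_neg hy2.le]
  have h3 : (y / 2) ^ ν ≠ 0 := (Real.rpow_pos_of_pos hy2 ν).ne'
  field_simp

lemma half_rpow {a x : ℝ} (ha : 0 < a) (hx : 0 < x) (μ : ℝ) :
    (a * √x / 2) ^ μ = a ^ μ * x ^ (μ / 2) / 2 ^ μ := by
  rw [Real.div_rpow (by positivity) (by norm_num), Real.mul_rpow ha.le (Real.sqrt_nonneg x),
    Real.sqrt_eq_rpow, ← Real.rpow_mul hx.le]
  congr 3; ring

lemma sq_arg {a x : ℝ} (hx : 0 < x) : (a * √x) ^ 2 = a ^ 2 * x := by
  rw [mul_pow, Real.sq_sqrt hx.le]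

lemma sqrt_arg {a x : ℝ} (ha : 0 < a) : √(a ^ 2 * x) = a * √x := by
  rw [Real.sqrt_mul (by positivity), Real.sqrt_sq ha.le]

open Q76.Sd in
lemma chi_eq {a b μ ν : ℝ} (ha : 0 < a) (hb : 0 < b) (hν : 0 < ν) (hμ : 1/2 < μ) {x : ℝ}
    (hx : 0 < x) : UI μ (a ^ 2 * x) * VK ν (b ^ 2 * x) = chi a b μ ν x := by
  have hs := Real.sqrt_pos.2 hx
  unfold chi UI VK
  rw [besselI_eq μ (by positivity), besselK_eq ν (by positivity), sq_arg hx, sq_arg hx,
    sqrt_arg ha, Real.rpow_neg (by positivity), half_rpow ha hx, half_rpow hb hx,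
    show (ν - μ) / 2 = ν / 2 - μ / 2 by ring, Real.rpow_sub hx, Real.rpow_add (by norm_num),
    Real.rpow_sub (by norm_num), Real.rpow_one]
  have h1 := Real.rpow_pos_of_pos hx (μ / 2)
  have h2 := Real.rpow_pos_of_pos hx (ν / 2)
  have h3 := Real.rpow_pos_of_pos ha μ
  have h4 := Real.rpow_pos_of_pos hb ν
  have h5 := Real.rpow_pos_of_pos (show (0:ℝ) < 2 by norm_num) μ
  have h6 := Real.rpow_pos_of_pos (show (0:ℝ) < 2 by norm_num) ν
  have h7 := Real.Gamma_pos_of_pos hν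
  field_simp

open Q76.Sd in
lemma zeta_eq {a b μ ν : ℝ} (ha : 0 < a) (hb : 0 < b) {x : ℝ}
    (hx : 0 < x) : UI μ (a ^ 2 * x) * UI ν (b ^ 2 * x) = zeta a b μ ν x := by
  have hs := Real.sqrt_pos.2 hx
  unfold zeta UI
  rw [besselI_eq μ (by positivity), besselI_eq ν (by positivity), sq_arg hx, sq_arg hx,
    sqrt_arg ha, sqrt_arg hb, half_rpow ha hx, half_rpow hb hx, Real.rpow_neg hx.le,
    show (μ + ν) / 2 = μ / 2 + ν / 2 by ring, Real.rpow_add hx, Real.rpow_add (by norm_num),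
    show -((a + b) * √x) = -(a * √x) + -(b * √x) by ring, Real.exp_add]
  have h1 := Real.rpow_pos_of_pos hx (μ / 2)
  have h2 := Real.rpow_pos_of_pos hx (ν / 2)
  have h3 := Real.rpow_pos_of_pos ha μ
  have h4 := Real.rpow_pos_of_pos hb ν
  have h5 := Real.rpow_pos_of_pos (show (0:ℝ) < 2 by norm_num) μ
  have h6 := Real.rpow_pos_of_pos (show (0:ℝ) < 2 by norm_num) ν
  field_simp

open Q76.Sd in
lemma eps_eq {a b μ ν : ℝ} (ha : 0 < a) (hb : 0 < b) (hν : 1/2 < ν) {x : ℝ}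
    (hx : 0 < x) : UI μ (a ^ 2 * x) * WK ν (b ^ 2 * x) = eps a b μ ν x := by
  have hs := Real.sqrt_pos.2 hx
  unfold eps UI WK
  rw [besselI_eq μ (by positivity), besselK_eq ν (by positivity), sq_arg hx, sq_arg hx,
    sqrt_arg ha, sqrt_arg hb, Real.rpow_neg (show 0 ≤ b * √x / 2 by positivity),
    half_rpow ha hx, half_rpow hb hx, Real.rpow_neg hx.le,
    show (μ + ν) / 2 = μ / 2 + ν / 2 by ring, Real.rpow_add hx,
    show (2:ℝ) ^ (μ + ν - 1) = 2 ^ μ * 2 ^ ν / 2 by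
      rw [Real.rpow_sub (by norm_num), Real.rpow_add (by norm_num), Real.rpow_one],
    show -((a + b) * √x) = -(a * √x) + -(b * √x) by ring, Real.exp_add]
  have h1 := Real.rpow_pos_of_pos hx (μ / 2)
  have h2 := Real.rpow_pos_of_pos hx (ν / 2)
  have h3 := Real.rpow_pos_of_pos ha μ
  have h4 := Real.rpow_pos_of_pos hb ν
  have h5 := Real.rpow_pos_of_pos (show (0:ℝ) < 2 by norm_num) μ
  have h6 := Real.rpow_pos_of_pos (show (0:ℝ) < 2 by norm_num) ν
  have h7 := Real.Gamma_pos_of_pos (s := ν) (by linarith)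
  have h8 := KK_pos (x := b ^ 2 * x) (by positivity) ν
  field_simp

open Q76.Sd in
lemma rho_eq {a b μ ν : ℝ} (ha : 0 < a) (hb : 0 < b) (hν : 0 < ν) (hμ : -1 < μ) {x : ℝ}
    (hx : 0 < x) : VK ν (b ^ 2 * x) * YI μ (a ^ 2 * x) = rho a b μ ν x := by
  have hs := Real.sqrt_pos.2 hx
  unfold rho VK YI
  rw [besselI_eq μ (by positivity), besselK_eq ν (by positivity), sq_arg hx, sq_arg hx,
    Real.rpow_neg (show 0 ≤ b * √x / 2 by positivity), half_rpow ha hx, half_rpow hb hx,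
    show (μ + ν) / 2 = μ / 2 + ν / 2 by ring, Real.rpow_add hx,
    show (2:ℝ) ^ (μ + ν - 1) = 2 ^ μ * 2 ^ ν / 2 by
      rw [Real.rpow_sub (by norm_num), Real.rpow_add (by norm_num), Real.rpow_one]]
  have h1 := Real.rpow_pos_of_pos hx (μ / 2)
  have h2 := Real.rpow_pos_of_pos hx (ν / 2)
  have h3 := Real.rpow_pos_of_pos ha μ
  have h4 := Real.rpow_pos_of_pos hb ν
  have h5 := Real.rpow_pos_of_pos (show (0:ℝ) < 2 by norm_num) μ
  have h6 := Real.rpow_pos_of_pos (show (0:ℝ) < 2 by norm_num) ν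
  have h7 := Real.Gamma_pos_of_pos hν
  have h8 := II_pos hμ (x := a ^ 2 * x) (by positivity)
  have h9 := Real.Gamma_pos_of_pos (s := μ + 1) (by linarith)
  field_simp

open Q76.Sd in
lemma transform_of_good {f L : ℝ → ℝ} (hf : Good f) (h : ∀ x, 0 < x → f x = L x) :
    SelfDecTransform L := by
  obtain ⟨P, hP⟩ := hf.law
  refine ⟨P, ⟨hP.prob, hP.supp, fun x hx => by rw [hP.lt x hx, h x hx]⟩, hf.selfDec hP,
    fun P' hP' => ?_⟩
  exact HasLT.unique (f := f) ⟨hP'.1, hP'.2.1, fun x hx => by rw [hP'.2.2 x hx, h x hx]⟩ hP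

/-- The distributions of all four families are self-decomposable, for all parameters in the
stated ranges. -/
theorem result :
    (∀ a b μ ν : ℝ, 0 < a → 0 < b → 0 < ν → 1/2 < μ → SelfDecTransform (chi a b μ ν)) ∧
    (∀ a b μ ν : ℝ, 0 < a → 0 < b → 1/2 < μ → 1/2 < ν → SelfDecTransform (zeta a b μ ν)) ∧
    (∀ a b μ ν : ℝ, 0 < a → 0 < b → 1/2 < μ → 1/2 < ν → SelfDecTransform (eps a b μ ν)) ∧
    (∀ a b μ ν : ℝ, 0 < a → 0 < b → 0 < ν → -1 < μ → SelfDecTransform (rho a b μ ν)) := by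
  refine ⟨fun a b μ ν ha hb hν hμ => ?_, fun a b μ ν ha hb hμ hν => ?_,
    fun a b μ ν ha hb hμ hν => ?_, fun a b μ ν ha hb hν hμ => ?_⟩
  · exact transform_of_good (((Q76.Sd.good_UI hμ).scale (pow_pos ha 2)).mul
      ((Q76.Sd.good_VK hν).scale (pow_pos hb 2))) fun x hx => chi_eq ha hb hν hμ hx
  · exact transform_of_good (((Q76.Sd.good_UI hμ).scale (pow_pos ha 2)).mul
      ((Q76.Sd.good_UI hν).scale (pow_pos hb 2))) fun x hx => zeta_eq ha hb hx
  · exact transform_of_good (((Q76.Sd.good_UI hμ).scale (pow_pos ha 2)).mul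
      ((Q76.Sd.good_WK hν).scale (pow_pos hb 2))) fun x hx => eps_eq ha hb hν hx
  · exact transform_of_good (((Q76.Sd.good_VK hν).scale (pow_pos hb 2)).mul
      ((Q76.Sd.good_YI hμ).scale (pow_pos ha 2))) fun x hx => rho_eq ha hb hν hμ hx

end Pool.Agent.Results.MP_749de9_pr.AllSelfDecomposable
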